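import Pool.Agent.H16.GU.Targets2

/-!
# Board gu, row AVI: the averaging inequality
-/

set_option autoImplicit false

namespace Pool.Agent.H41.GU

open Finset Pool.Agent.H34.GM Pool.Agent.H34.GZ Pool.Agent.H34.GU

/-- one factor against the geometric mean -/
theorem max_pow_le {m : ℕ} (a : Fin m → ℝ) (ha : ∀ i, 0 < a i) (A : ℝ) (hA : 0 < A)
    (hAm : A ^ m = ∏ i, a i) (i : Fin m) :
    (1 + a i / A) ^ m ≤ 2 ^ m * ∏ k, max 1 (a i / a k) := by
  have h1 : 1 + a i / A ≤ 2 * max 1 (a i / A) := by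
    have h2 := le_max_left 1 (a i / A)
    have h3 := le_max_right 1 (a i / A)
    linarith
  have hnn : 0 ≤ 1 + a i / A := by have := ha i; positivity
  calc (1 + a i / A) ^ m ≤ (2 * max 1 (a i / A)) ^ m := pow_le_pow_left₀ hnn h1 m
    _ = 2 ^ m * (max 1 (a i / A)) ^ m := mul_pow _ _ _
    _ ≤ 2 ^ m * ∏ k, max 1 (a i / a k) := by
        apply mul_le_mul_of_nonneg_left _ (by positivity)
        rcases le_total (a i / A) 1 with h | h
        · rw [max_eq_left h, one_pow]
          have : ∏ _k : Fin m, (1 : ℝ) ≤ ∏ k, max 1 (a i / a k) :=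
            prod_le_prod (fun _ _ => zero_le_one) fun k _ => le_max_left _ _
          simpa using this
        · rw [max_eq_right h]
          have : (a i / A) ^ m = ∏ k, a i / a k := by
            rw [div_pow, hAm, prod_div_distrib, prod_const, card_univ, Fintype.card_fin]
          rw [this]
          exact prod_le_prod (fun k _ => (div_pos (ha i) (ha k)).le) fun k _ => le_max_right _ _

theorem pair_le {m : ℕ} (u v : ℝ) (hu : 0 < u) (hv : 0 < v) (h : u ≤ 2 ^ m * v) :
    max 1 (u / v) * max 1 (v / u) ≤ 4 ^ m * (v / u) := by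
  have h2 : (1 : ℝ) ≤ 2 ^ m := one_le_pow₀ (by norm_num)
  have h4 : (4 : ℝ) ^ m = 2 ^ m * 2 ^ m := by rw [← mul_pow]; norm_num
  rcases le_total u v with huv | huv
  · have e1 : max 1 (u / v) = 1 := max_eq_left (by rw [div_le_one hv]; exact huv)
    have e2 : max 1 (v / u) = v / u := max_eq_right (by rw [one_le_div hu]; exact huv)
    rw [e1, e2, one_mul]
    have h5 : 0 < v / u := div_pos hv hu
    have h6 : (1 : ℝ) ≤ 4 ^ m := one_le_pow₀ (by norm_num)
    nlinarith only [h5, h6]
  · have e1 : max 1 (u / v) = u / v := max_eq_right (by rw [one_le_div hv]; exact huv)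
    have e2 : max 1 (v / u) = 1 := max_eq_left (by rw [div_le_one hu]; exact huv)
    rw [e1, e2, mul_one, h4, div_le_iff₀ hv]
    have h7 : 2 ^ m * 2 ^ m * (v / u) * v = (2 ^ m * v) * (2 ^ m * v) / u := by ring
    rw [h7, le_div_iff₀ hu]
    exact mul_le_mul h h hu.le (by positivity)

/-- the product over all pairs against the skewness -/
theorem prod_pairs {m : ℕ} (a : Fin m → ℝ) (ha : ∀ i, 0 < a i)
    (hord : ∀ i j, i ≤ j → a i ≤ 2 ^ m * a j) :
    ∏ i, ∏ k, max 1 (a i / a k) ≤
      ((4 : ℝ) ^ m) ^ (m * m) * ∏ i : Fin m, ∏ j, (if i < j then a j / a i else 1) := by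
  -- symmetrise
  have hmx : ∀ i k, 0 < max 1 (a i / a k) := fun i k => lt_of_lt_of_le one_pos (le_max_left _ _)
  have h1 : ∏ i, ∏ k, max 1 (a i / a k) =
      ∏ i : Fin m, ∏ k : Fin m, (if i < k then max 1 (a i / a k) * max 1 (a k / a i) else 1) := by
    have e0 : ∀ i k : Fin m, max 1 (a i / a k) =
        (if i < k then max 1 (a i / a k) else 1) * (if k < i then max 1 (a i / a k) else 1) := by
      intro i k
      rcases lt_trichotomy i k with h | h | h
      · rw [if_pos h, if_neg (not_lt.2 h.le), mul_one]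
      · subst h
        rw [if_neg (lt_irrefl _), div_self (ha i).ne', max_self, mul_one]
      · rw [if_neg (not_lt.2 h.le), if_pos h, one_mul]
    calc ∏ i, ∏ k, max 1 (a i / a k)
        = ∏ i, ∏ k, ((if i < k then max 1 (a i / a k) else 1) *
            (if k < i then max 1 (a i / a k) else 1)) := by
          exact prod_congr rfl fun i _ => prod_congr rfl fun k _ => e0 i k
      _ = (∏ i, ∏ k, (if i < k then max 1 (a i / a k) else 1)) *
            ∏ i, ∏ k, (if k < i then max 1 (a i / a k) else 1) := by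
          simp only [prod_mul_distrib]
      _ = (∏ i, ∏ k, (if i < k then max 1 (a i / a k) else 1)) *
            ∏ k, ∏ i, (if k < i then max 1 (a i / a k) else 1) := by
          congr 1
          exact prod_comm
      _ = ∏ i : Fin m, ∏ k : Fin m,
            (if i < k then max 1 (a i / a k) * max 1 (a k / a i) else 1) := by
          rw [← prod_mul_distrib]
          refine prod_congr rfl fun i _ => ?_
          rw [← prod_mul_distrib]
          refine prod_congr rfl fun k _ => ?_
          by_cases h : i < k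
          · rw [if_pos h, if_pos h, if_pos h]
          · rw [if_neg h, if_neg h, if_neg h, mul_one]
  have h2 : ∏ i : Fin m, ∏ k : Fin m,
      (if i < k then max 1 (a i / a k) * max 1 (a k / a i) else 1) ≤
      ∏ i : Fin m, ∏ k : Fin m, (4 ^ m * (if i < k then a k / a i else 1)) := by
    refine prod_le_prod (fun i _ => prod_nonneg fun k _ => ?_) fun i _ =>
      prod_le_prod (fun k _ => ?_) fun k _ => ?_
    · split_ifs
      · exact (mul_pos (hmx i k) (hmx k i)).le
      · exact zero_le_one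
    · split_ifs
      · exact (mul_pos (hmx i k) (hmx k i)).le
      · exact zero_le_one
    · by_cases h : i < k
      · rw [if_pos h, if_pos h]
        exact pair_le _ _ (ha i) (ha k) (hord i k h.le)
      · rw [if_neg h, if_neg h, mul_one]
        exact one_le_pow₀ (by norm_num)
  have h3 : ∏ i : Fin m, ∏ k : Fin m, (4 ^ m * (if i < k then a k / a i else 1)) =
      ((4 : ℝ) ^ m) ^ (m * m) * ∏ i : Fin m, ∏ j, (if i < j then a j / a i else 1) := by
    simp only [prod_mul_distrib, prod_const, card_univ, Fintype.card_fin]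
    rw [← pow_mul ((4 : ℝ) ^ m) m m]
  rw [h1]
  exact h2.trans (le_of_eq h3)

/-- all factors of one sequence against its geometric mean -/
theorem one_side {m : ℕ} (a : Fin m → ℝ) (ha : ∀ i, 0 < a i)
    (hord : ∀ i j, i ≤ j → a i ≤ 2 ^ m * a j) (A : ℝ) (hA : 0 < A) (hAm : A ^ m = ∏ i, a i) :
    ∏ i, (1 + a i / A) ^ m ≤ (2 : ℝ) ^ (m * m) * (((4 : ℝ) ^ m) ^ (m * m) *
      ∏ i : Fin m, ∏ j, (if i < j then a j / a i else 1)) := by
  calc ∏ i, (1 + a i / A) ^ m ≤ ∏ i, (2 ^ m * ∏ k, max 1 (a i / a k)) :=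
        prod_le_prod (fun i _ => pow_nonneg (by have := ha i; positivity) m) fun i _ =>
          max_pow_le a ha A hA hAm i
    _ = (2 : ℝ) ^ (m * m) * ∏ i, ∏ k, max 1 (a i / a k) := by
        rw [prod_mul_distrib, prod_const, card_univ, Fintype.card_fin, ← pow_mul]
    _ ≤ _ := mul_le_mul_of_nonneg_left (prod_pairs a ha hord) (by positivity)

theorem max_pow_le' {m : ℕ} (a : Fin m → ℝ) (ha : ∀ i, 0 < a i) (A : ℝ) (hA : 0 < A)
    (hAm : A ^ m = ∏ i, a i) (i : Fin m) :
    (1 + A / a i) ^ m ≤ 2 ^ m * ∏ k, max 1 (a k / a i) := by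
  have h1 : 1 + A / a i ≤ 2 * max 1 (A / a i) := by
    have h2 := le_max_left 1 (A / a i)
    have h3 := le_max_right 1 (A / a i)
    linarith
  have hnn : 0 ≤ 1 + A / a i := by have := ha i; positivity
  calc (1 + A / a i) ^ m ≤ (2 * max 1 (A / a i)) ^ m := pow_le_pow_left₀ hnn h1 m
    _ = 2 ^ m * (max 1 (A / a i)) ^ m := mul_pow _ _ _
    _ ≤ 2 ^ m * ∏ k, max 1 (a k / a i) := by
        apply mul_le_mul_of_nonneg_left _ (by positivity)
        rcases le_total (A / a i) 1 with h | h
        · rw [max_eq_left h, one_pow]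
          have : ∏ _k : Fin m, (1 : ℝ) ≤ ∏ k, max 1 (a k / a i) :=
            prod_le_prod (fun _ _ => zero_le_one) fun k _ => le_max_left _ _
          simpa using this
        · rw [max_eq_right h]
          have : (A / a i) ^ m = ∏ k, a k / a i := by
            rw [div_pow, hAm, prod_div_distrib, prod_const, card_univ, Fintype.card_fin]
          rw [this]
          exact prod_le_prod (fun k _ => (div_pos (ha k) (ha i)).le) fun k _ => le_max_right _ _

theorem other_side {m : ℕ} (a : Fin m → ℝ) (ha : ∀ i, 0 < a i)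
    (hord : ∀ i j, i ≤ j → a i ≤ 2 ^ m * a j) (A : ℝ) (hA : 0 < A) (hAm : A ^ m = ∏ i, a i) :
    ∏ i, (1 + A / a i) ^ m ≤ (2 : ℝ) ^ (m * m) * (((4 : ℝ) ^ m) ^ (m * m) *
      ∏ i : Fin m, ∏ j, (if i < j then a j / a i else 1)) := by
  calc ∏ i, (1 + A / a i) ^ m ≤ ∏ i, (2 ^ m * ∏ k, max 1 (a k / a i)) :=
        prod_le_prod (fun i _ => pow_nonneg (by have := ha i; positivity) m) fun i _ =>
          max_pow_le' a ha A hA hAm i
    _ = (2 : ℝ) ^ (m * m) * ∏ i, ∏ k, max 1 (a k / a i) := by
        rw [prod_mul_distrib, prod_const, card_univ, Fintype.card_fin, ← pow_mul]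
    _ = (2 : ℝ) ^ (m * m) * ∏ k, ∏ i, max 1 (a k / a i) := by
        congr 1
        exact prod_comm
    _ ≤ _ := mul_le_mul_of_nonneg_left (prod_pairs a ha hord) (by positivity)

theorem pf_AVI : T_AVI := by
  intro m c hm hc
  refine ⟨(1 + max 1 c) ^ (m * m) * ((2 : ℝ) ^ (m * m) * ((4 : ℝ) ^ m) ^ (m * m)) ^ 2,
    by positivity, ?_⟩
  intro a a' ha ha' hord hord' hprod
  have hm0 : m ≠ 0 := by omega
  have hPa : 0 < ∏ i, a i := prod_pos fun i _ => ha i
  have hPa' : 0 < ∏ i, a' i := prod_pos fun i _ => ha' i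
  obtain ⟨A, hA, hAm⟩ : ∃ A : ℝ, 0 < A ∧ A ^ m = ∏ i, a i :=
    ⟨(∏ i, a i) ^ (1 / (m : ℝ)), Real.rpow_pos_of_pos hPa _, by
      rw [← Real.rpow_natCast, ← Real.rpow_mul hPa.le, one_div,
        inv_mul_cancel₀ (by exact_mod_cast hm0), Real.rpow_one]⟩
  obtain ⟨B, hB, hBm⟩ : ∃ B : ℝ, 0 < B ∧ B ^ m = ∏ i, a' i :=
    ⟨(∏ i, a' i) ^ (1 / (m : ℝ)), Real.rpow_pos_of_pos hPa' _, by
      rw [← Real.rpow_natCast, ← Real.rpow_mul hPa'.le, one_div,
        inv_mul_cancel₀ (by exact_mod_cast hm0), Real.rpow_one]⟩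
  have hAB : A / B ≤ max 1 c := by
    have h1 : (A / B) ^ m ≤ (max 1 c) ^ m := by
      rw [div_pow, hAm, hBm]
      calc (∏ i, a i) / ∏ i, a' i ≤ c := by rw [div_le_iff₀ hPa']; exact hprod
        _ ≤ max 1 c := le_max_right _ _
        _ = (max 1 c) ^ 1 := (pow_one _).symm
        _ ≤ (max 1 c) ^ m := pow_le_pow_right₀ (le_max_left _ _) hm
    exact le_of_pow_le_pow_left₀ hm0 (le_trans zero_le_one (le_max_left _ _)) h1
  have hfac : ∀ i j, 1 + a i / a' j ≤ (1 + a i / A) * (1 + max 1 c) * (1 + B / a' j) := by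
    intro i j
    have e1 : a i / a' j = a i / A * (A / B) * (B / a' j) := by
      field_simp
    have p1 : 0 < a i / A := div_pos (ha i) hA
    have p2 : 0 < A / B := div_pos hA hB
    have p3 : 0 < B / a' j := div_pos hB (ha' j)
    calc 1 + a i / a' j = 1 + a i / A * (A / B) * (B / a' j) := by rw [← e1]
      _ ≤ (1 + a i / A) * (1 + A / B) * (1 + B / a' j) := by
          have q1 := mul_pos p1 p2
          have q2 := mul_pos p1 p3
          have q3 := mul_pos p2 p3
          nlinarith only [p1, p2, p3, q1, q2, q3]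
      _ ≤ (1 + a i / A) * (1 + max 1 c) * (1 + B / a' j) := by
          apply mul_le_mul_of_nonneg_right _ (by positivity)
          apply mul_le_mul_of_nonneg_left _ (by positivity)
          linarith
  have h1 := one_side a ha hord A hA hAm
  have h2 := other_side a' ha' hord' B hB hBm
  have hs : skw a = ∏ i : Fin m, ∏ j, (if i < j then a j / a i else 1) := rfl
  have hs' : skw a' = ∏ i : Fin m, ∏ j, (if i < j then a' j / a' i else 1) := rfl
  rw [← hs] at h1
  rw [← hs'] at h2
  have hnn1 : 0 ≤ ∏ i, (1 + a i / A) ^ m :=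
    prod_nonneg fun i _ => pow_nonneg (by have := ha i; positivity) m
  have hnn2 : 0 ≤ ∏ j, (1 + B / a' j) ^ m :=
    prod_nonneg fun j _ => pow_nonneg (by have := ha' j; positivity) m
  calc ∏ i, ∏ j, (1 + a i / a' j)
      ≤ ∏ i, ∏ j, ((1 + a i / A) * (1 + max 1 c) * (1 + B / a' j)) :=
        prod_le_prod (fun i _ => prod_nonneg fun j _ => by
          have := div_pos (ha i) (ha' j); positivity) fun i _ =>
          prod_le_prod (fun j _ => by have := div_pos (ha i) (ha' j); positivity) fun j _ =>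
            hfac i j
    _ = (∏ i, (1 + a i / A) ^ m) * (1 + max 1 c) ^ (m * m) * ∏ j, (1 + B / a' j) ^ m := by
        simp only [prod_mul_distrib, prod_const, card_univ, Fintype.card_fin]
        rw [← pow_mul, prod_pow, prod_pow]
    _ ≤ ((2 : ℝ) ^ (m * m) * (((4 : ℝ) ^ m) ^ (m * m) * skw a)) * (1 + max 1 c) ^ (m * m) *
          ((2 : ℝ) ^ (m * m) * (((4 : ℝ) ^ m) ^ (m * m) * skw a')) := by
        apply mul_le_mul _ h2 hnn2
        · have := hnn1.trans h1
          positivity
        · exact mul_le_mul_of_nonneg_right h1 (by positivity)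
    _ = _ := by ring

end Pool.Agent.H41.GU
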